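import Pool.Agent.Work.MP_4dcfa0_pr.B_V
import Pool.Agent.Work.MP_4dcfa0_pr.B_DE
import Pool.Agent.Work.MP_4dcfa0_pr.B_G
import Pool.Agent.Work.MP_4dcfa0_pr.B_TH
import Pool.Agent.Work.MP_4dcfa0_pr.B_Q30
import Pool.Agent.Work.MP_4dcfa0_pr.B_Q42
import Pool.Agent.Work.MP_4dcfa0_pr.B_R1
import Pool.Agent.Work.MP_4dcfa0_pr.B_R2
import Pool.Agent.Work.MP_4dcfa0_pr.B_R3
import Pool.Agent.Work.MP_4dcfa0_pr.B_R4
import Pool.Agent.Work.MP_4dcfa0_pr.B_FIN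

/-!
# MP_4dcfa0_nt: Q1 for `n = m ^ 2`, `m` a prime or `m ≡ ± 3 mod 8`

Let `U n` be the set of integer solutions of `x ^ 4 + y ^ 4 - w ^ 2 = n`.

* For `m ≡ ± 3 mod 8` every solution for `n = m ^ 2` has a prime `l ≡ 5 mod 8` which divides `x` and
  `y` and divides `m` to an odd power. So `U (m ^ 2)` is empty if there is no such prime factor of
  `m`, and it is empty or infinite if all of them are larger than `√|m|`.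
* For primes `p`, `U (p ^ 2)` is empty if `p = 2` or `p ≡ 3 mod 8`, empty or infinite if
  `p ≡ 5 mod 8`, and infinite if `p ≡ ± 1, ± 49 mod 120` or `p ≡ ± 17, ± 41, ± 89 mod 168`.
* `U (m ^ 2)` is infinite for all `m ≠ 0` of the forms `a ^ 2 - 120 c ^ 2` and `24 a ^ 2 - 7 c ^ 2`.
-/

set_option autoImplicit false

namespace Pool.Agent.Results.MP_4dcfa0_nt.PrimeSquares

/-- The integer solutions `(x, y, w)` of `x ^ 4 + y ^ 4 - w ^ 2 = n`. -/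
def U (n : ℤ) : Set (ℤ × ℤ × ℤ) := {v | v.1 ^ 4 + v.2.1 ^ 4 - v.2.2 ^ 2 = n}

open Pool.Agent.Work.MP_4dcfa0_pr in
theorem result :
    (∀ m : ℤ, (m % 8 = 3 ∨ m % 8 = 5) →
      (∀ x y w : ℤ, x ^ 4 + y ^ 4 - w ^ 2 = m ^ 2 →
        ∃ l : ℕ, l.Prime ∧ l % 8 = 5 ∧ (l : ℤ) ∣ x ∧ (l : ℤ) ∣ y ∧ Odd (padicValInt l m)) ∧
      ((¬ ∃ l : ℕ, l.Prime ∧ l % 8 = 5 ∧ Odd (padicValInt l m)) → U (m ^ 2) = ∅) ∧
      ((∀ l : ℕ, l.Prime → l % 8 = 5 → Odd (padicValInt l m) → |m| < (l : ℤ) ^ 2) →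
        U (m ^ 2) = ∅ ∨ (U (m ^ 2)).Infinite)) ∧
    (∀ p : ℕ, p.Prime →
      ((p = 2 ∨ p % 8 = 3) → U ((p : ℤ) ^ 2) = ∅) ∧
      (p % 8 = 5 → U ((p : ℤ) ^ 2) = ∅ ∨ (U ((p : ℤ) ^ 2)).Infinite) ∧
      ((p % 120 ∈ ({1, 49, 71, 119} : Finset ℕ) ∨
        p % 168 ∈ ({17, 41, 79, 89, 127, 151} : Finset ℕ)) → (U ((p : ℤ) ^ 2)).Infinite)) ∧
    (∀ m a c : ℤ, m ≠ 0 → (m = a ^ 2 - 120 * c ^ 2 ∨ m = 24 * a ^ 2 - 7 * c ^ 2) →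
      (U (m ^ 2)).Infinite) := by
  have hT : S_T := p_T p_V p_D p_E p_G
  refine ⟨fun m hm => ⟨fun x y w h => hT m x y w h hm, fun hno => ?_, fun hl => fin_A hT m hm hl⟩,
    fun p hp => ⟨?_, fun h5 => fin_5 hT p hp h5, fun h => ?_⟩, ?_⟩
  · rw [Set.eq_empty_iff_forall_notMem]
    rintro ⟨x, y, w⟩ h
    obtain ⟨l, h1, h2, -, -, h3⟩ := hT m x y w h hm
    exact hno ⟨l, h1, h2, h3⟩
  · rintro (rfl | h3)
    · exact fin_2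
    · exact fin_3 hT p hp h3
  · exact fin_B (p_R1 p_TH p_Q30) (p_R2 p_TH p_Q30) (p_R3 p_TH p_Q42) (p_R4 p_TH p_Q42) p hp h
  · rintro m a c hm (rfl | rfl)
    · exact fin_120 a c hm
    · exact fin_168 a c hm

end Pool.Agent.Results.MP_4dcfa0_nt.PrimeSquares
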