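import Mathlib
import Pool.Agent.Work.MP_4dcfa0_45.Main

/-!
# MP_4dcfa0_nt: `x ^ 4 + y ^ 4 - w ^ 2 = m ^ 2`

For every non-zero integer `m` the equation has infinitely many integer solutions if and only if
it has one with `x ^ 2 > |m|` or `y ^ 2 > |m|`.
-/

set_option autoImplicit false

namespace Pool.Agent.Results.MP_4dcfa0_nt.SquareCriterion

/-- For `m ≠ 0` the equation `x ^ 4 + y ^ 4 - w ^ 2 = m ^ 2` has infinitely many integer solutions
if and only if it has one with `max (x ^ 2) (y ^ 2) > |m|`. -/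
theorem result (m : ℤ) (hm : m ≠ 0) :
    {p : ℤ × ℤ × ℤ | p.1 ^ 4 + p.2.1 ^ 4 - p.2.2 ^ 2 = m ^ 2}.Infinite ↔
      ∃ x y w : ℤ, x ^ 4 + y ^ 4 - w ^ 2 = m ^ 2 ∧ |m| < max (x ^ 2) (y ^ 2) :=
  Pool.Agent.Work.MP_4dcfa0_45.square_iff m hm

end Pool.Agent.Results.MP_4dcfa0_nt.SquareCriterion
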