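import Pool.Agent.Work.MP_4dcfa0_tan.Main

/-!
`x^4 + y^4 - w^2 = q^4 (a^4 + b^4)`: a criterion for infinitely many integer solutions for some
`q`, and infinitely many coprime pairs `(a, b)` to which it applies, with the right-hand side
neither a square nor twice a square.
-/

set_option autoImplicit false

namespace Pool.Agent.Results.MP_4dcfa0_nt.TangentLines

/-- (1) If `a`, `b` are non-zero integers and `a^8 + a^4 b^4 + b^8 = s^2 - 2 t^2` for rational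
`s`, `t`, then for some integer `q ≥ 1` the equation `x^4 + y^4 - w^2 = q^4 (a^4 + b^4)` has
infinitely many integer solutions.
(2) For infinitely many coprime pairs `(a, b)` of positive integers there is `q ≥ 1` such that
`q^4 (a^4 + b^4)` is neither a square nor twice a square and
`x^4 + y^4 - w^2 = q^4 (a^4 + b^4)` has infinitely many integer solutions. -/
theorem result :
    (∀ a b : ℤ, a ≠ 0 → b ≠ 0 →
      (∃ s t : ℚ, s ^ 2 - 2 * t ^ 2 = (a : ℚ) ^ 8 + (a : ℚ) ^ 4 * (b : ℚ) ^ 4 + (b : ℚ) ^ 8) →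
      ∃ q : ℕ, 0 < q ∧ {v : ℤ × ℤ × ℤ | v.1 ^ 4 + v.2.1 ^ 4 - v.2.2 ^ 2 =
        (q : ℤ) ^ 4 * (a ^ 4 + b ^ 4)}.Infinite) ∧
    {p : ℕ × ℕ | 0 < p.1 ∧ 0 < p.2 ∧ p.1.Coprime p.2 ∧ ∃ q : ℕ, 0 < q ∧
      (∀ m : ℤ, (q : ℤ) ^ 4 * ((p.1 : ℤ) ^ 4 + (p.2 : ℤ) ^ 4) ≠ m ^ 2 ∧
        (q : ℤ) ^ 4 * ((p.1 : ℤ) ^ 4 + (p.2 : ℤ) ^ 4) ≠ 2 * m ^ 2) ∧
      {v : ℤ × ℤ × ℤ | v.1 ^ 4 + v.2.1 ^ 4 - v.2.2 ^ 2 =
        (q : ℤ) ^ 4 * ((p.1 : ℤ) ^ 4 + (p.2 : ℤ) ^ 4)}.Infinite}.Infinite :=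
  ⟨fun a b ha hb h => Pool.Agent.Work.MP_4dcfa0_tan.criterion a b ha hb h,
    Pool.Agent.Work.MP_4dcfa0_tan.infinite_pairs⟩

end Pool.Agent.Results.MP_4dcfa0_nt.TangentLines
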