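import Mathlib
import Pool.Agent.Work.MP_4dcfa0_45.Main

/-!
# MP_4dcfa0_nt: `x ^ 4 + y ^ 4 - w ^ 2 = n` for `n = 2 m ^ 2` and `n = -2 m ^ 2`

For every non-zero integer `m` the equation has infinitely many integer solutions with coprime
`x` and `y`, for both values of `n`.
-/

set_option autoImplicit false

namespace Pool.Agent.Results.MP_4dcfa0_nt.TwiceSquares

/-- For every `m ≠ 0` and `n = 2 m ^ 2` or `n = -2 m ^ 2` there are infinitely many integer triples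
`(x, y, w)` with `x ^ 4 + y ^ 4 - w ^ 2 = n` and `x`, `y` coprime. -/
theorem result (m n : ℤ) (hm : m ≠ 0) (hn : n = 2 * m ^ 2 ∨ n = -2 * m ^ 2) :
    {p : ℤ × ℤ × ℤ | p.1 ^ 4 + p.2.1 ^ 4 - p.2.2 ^ 2 = n ∧ IsCoprime p.1 p.2.1}.Infinite := by
  rcases hn with rfl | rfl
  · exact Pool.Agent.Work.MP_4dcfa0_45.two_sq m hm
  · exact Pool.Agent.Work.MP_4dcfa0_45.neg_two_sq m hm

end Pool.Agent.Results.MP_4dcfa0_nt.TwiceSquares
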